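import Mathlib

set_option autoImplicit false

open Set

namespace Pool.Agent.Results.MP_75a0ab_co.NotDense

/-- Euclidean space of dimension `d`. -/
abbrev E (d : ℕ) := EuclideanSpace ℝ (Fin d)

/-- The space of convex bodies (compact, convex, nonempty interior) of dimension `d` that are
symmetric about the origin, with the Hausdorff metric inherited from `ConvexBody`. -/
abbrev SymBody (d : ℕ) :=
  {K : ConvexBody (E d) // (interior (K : Set (E d))).Nonempty ∧ ∀ x ∈ K, -x ∈ K}

/-- The translate of `K` by the vector `v`. -/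
def tr {d : ℕ} (K : Set (E d)) (v : E d) : Set (E d) := (fun x => v + x) '' K

/-- The translates of `K` by the vectors in `V` form a packing: their interiors are pairwise
disjoint. -/
def IsPacking {d : ℕ} (K : Set (E d)) (V : Set (E d)) : Prop :=
  ∀ u ∈ V, ∀ v ∈ V, u ≠ v → Disjoint (interior (tr K u)) (interior (tr K v))

/-- The family of translates of `K` by the vectors in `V` is totally separable: for every two
members there is a hyperplane `f = c` separating them which meets the interior of no member. -/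
def IsTotallySeparable {d : ℕ} (K : Set (E d)) (V : Set (E d)) : Prop :=
  ∀ u ∈ V, ∀ v ∈ V, u ≠ v → ∃ f : E d →L[ℝ] ℝ, ∃ c : ℝ, f ≠ 0 ∧
    (∀ x ∈ tr K u, f x ≤ c) ∧ (∀ x ∈ tr K v, c ≤ f x) ∧
    ∀ w ∈ V, Disjoint (interior (tr K w)) {x | f x = c}

/-- `V` is (the set of translation vectors of) a separable Hadwiger configuration of `K`:
translates of `K` other than `K`, each touching `K`, which together with `K` form a totally
separable packing. -/
def IsSepHadwigerConfig {d : ℕ} (K : Set (E d)) (V : Finset (E d)) : Prop :=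
  0 ∉ V ∧ (∀ v ∈ V, (tr K v ∩ K).Nonempty) ∧
    IsPacking K (insert 0 (V : Set (E d))) ∧ IsTotallySeparable K (insert 0 (V : Set (E d)))

/-- The separable Hadwiger number: the supremum of the sizes of separable Hadwiger
configurations. -/
noncomputable def Hsep {d : ℕ} (K : Set (E d)) : ℕ∞ :=
  ⨆ (V : Finset (E d)) (_ : IsSepHadwigerConfig K V), (V.card : ℕ∞)

/-- A system of `m` vectors and `m` functionals in dimension `d` whose pairing matrix has unit
diagonal and off-diagonal entries strictly between minus one and zero, with a vector on which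
all functionals are negative. -/
def SC (d m : ℕ) : Prop :=
  ∃ (x f : Fin m → Fin d → ℝ) (b : Fin d → ℝ), (∀ i, ∑ k, f i k * x i k = 1) ∧
    (∀ i j, i ≠ j → -1 < ∑ k, f i k * x j k ∧ ∑ k, f i k * x j k < 0) ∧
    ∀ i, -1 < ∑ k, f i k * b k ∧ ∑ k, f i k * b k < 0

lemma SC_one : SC 1 1 := by
  refine ⟨fun _ _ => 1, fun _ _ => 1, fun _ => -1 / 2, ?_, ?_, ?_⟩
  · intro i; simp
  · intro i j h; exact absurd (Subsingleton.elim i j) h
  · intro i; simp; norm_num

lemma SC_add {d₁ m₁ d₂ m₂ : ℕ} (h₁ : SC d₁ m₁) (h₂ : SC d₂ m₂) : SC (d₁ + d₂) (m₁ + m₂) := by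
  obtain ⟨x, f, b, hd, ho, hb⟩ := h₁
  obtain ⟨y, g, c, hd', ho', hb'⟩ := h₂
  refine ⟨Fin.addCases (fun i => Fin.append (x i) c) (fun j => Fin.append b (y j)),
    Fin.addCases (fun i => Fin.append (f i) 0) (fun j => Fin.append 0 (g j)),
    Fin.append b c, ?_, ?_, ?_⟩
  · intro i
    refine Fin.addCases (fun i => ?_) (fun j => ?_) i
    · simp [Fin.sum_univ_add, hd i]
    · simp [Fin.sum_univ_add, hd' j]
  · intro i
    refine Fin.addCases (fun i => ?_) (fun i => ?_) i
    · intro j
      refine Fin.addCases (fun j => ?_) (fun j => ?_) j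
      · intro hij
        have hne : i ≠ j := fun h => hij (by rw [h])
        simpa [Fin.sum_univ_add] using ho i j hne
      · intro _
        simpa [Fin.sum_univ_add] using hb i
    · intro j
      refine Fin.addCases (fun j => ?_) (fun j => ?_) j
      · intro _
        simpa [Fin.sum_univ_add] using hb' i
      · intro hij
        have hne : i ≠ j := fun h => hij (by rw [h])
        simpa [Fin.sum_univ_add] using ho' i j hne
  · intro i
    refine Fin.addCases (fun i => ?_) (fun i => ?_) i
    · simpa [Fin.sum_univ_add] using hb i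
    · simpa [Fin.sum_univ_add] using hb' i

/-- integer version of the conditions -/
lemma SC_of_int {d m : ℕ} (x f : Fin m → Fin d → ℤ) (b : Fin d → ℤ)
    (h : ∀ i j, if i = j then 0 < ∑ k, f i k * x i k else
      (-(∑ k, f i k * x i k) < ∑ k, f i k * x j k ∧ ∑ k, f i k * x j k < 0))
    (hb : ∀ i, ∑ k, f i k * b k < 0) : SC d m := by
  have hpos : ∀ i, (0 : ℝ) < ∑ k, (f i k : ℝ) * (x i k : ℝ) := by
    intro i
    have := h i i
    rw [if_pos rfl] at this
    exact_mod_cast this
  -- a bound used to shrink the vector `b`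
  let S : ℝ := 1 + ∑ i, |(∑ k, (f i k : ℝ) * (b k : ℝ)) / ∑ k, (f i k : ℝ) * (x i k : ℝ)|
  have hS : 0 < S := by positivity
  refine ⟨fun i k => (x i k : ℝ), fun i k => (f i k : ℝ) / ∑ l, (f i l : ℝ) * (x i l : ℝ),
    fun k => (b k : ℝ) / S, ?_, ?_, ?_⟩
  · intro i
    have h1 : ∀ k, (f i k : ℝ) / (∑ l, (f i l : ℝ) * (x i l : ℝ)) * (x i k : ℝ) =
        (f i k : ℝ) * (x i k : ℝ) / ∑ l, (f i l : ℝ) * (x i l : ℝ) := fun k => by ring
    simp_rw [h1]
    rw [← Finset.sum_div]
    exact div_self (hpos i).ne'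
  · intro i j hij
    have h1 : ∀ k, (f i k : ℝ) / (∑ l, (f i l : ℝ) * (x i l : ℝ)) * (x j k : ℝ) =
        (f i k : ℝ) * (x j k : ℝ) / ∑ l, (f i l : ℝ) * (x i l : ℝ) := fun k => by ring
    simp only [h1]
    rw [← Finset.sum_div]
    have h2 := h i j
    rw [if_neg hij] at h2
    obtain ⟨h3, h4⟩ := h2
    have h3' : -(∑ k, (f i k : ℝ) * (x i k : ℝ)) < ∑ k, (f i k : ℝ) * (x j k : ℝ) := by
      exact_mod_cast h3
    have h4' : ∑ k, (f i k : ℝ) * (x j k : ℝ) < 0 := by exact_mod_cast h4
    refine ⟨?_, div_neg_of_neg_of_pos h4' (hpos i)⟩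
    rw [lt_div_iff₀ (hpos i)]
    linarith
  · intro i
    have h1 : ∀ k, (f i k : ℝ) / (∑ l, (f i l : ℝ) * (x i l : ℝ)) * ((b k : ℝ) / S) =
        (f i k : ℝ) * (b k : ℝ) / ((∑ l, (f i l : ℝ) * (x i l : ℝ)) * S) := fun k => by
      field_simp
    simp only [h1]
    rw [← Finset.sum_div]
    have h4' : ∑ k, (f i k : ℝ) * (b k : ℝ) < 0 := by exact_mod_cast hb i
    refine ⟨?_, div_neg_of_neg_of_pos h4' (mul_pos (hpos i) hS)⟩
    have hle : |(∑ k, (f i k : ℝ) * (b k : ℝ)) / ∑ k, (f i k : ℝ) * (x i k : ℝ)| < S := by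
      have := Finset.single_le_sum
        (f := fun i => |(∑ k, (f i k : ℝ) * (b k : ℝ)) / ∑ k, (f i k : ℝ) * (x i k : ℝ)|)
        (fun j _ => abs_nonneg _) (Finset.mem_univ i)
      linarith
    rw [abs_lt] at hle
    rw [← div_div, lt_div_iff₀ hS]
    linarith [hle.1]

def X7 : Fin 15 → Fin 7 → ℤ :=
  ![![119, -118, -33, 39, -30, 36, 48],
    ![-30, -115, 36, 18, -45, 106, -62],
    ![-88, -70, -40, -57, 95, -17, -48],
    ![-143, -14, -4, -62, -72, 48, 44],
    ![17, -30, -110, -80, 14, 136, 11],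
    ![-33, 21, -23, 83, -30, 109, 108],
    ![34, -27, -67, 128, -12, -106, 50],
    ![-81, -73, 88, 115, 66, -10, 40],
    ![79, -77, -152, -63, 0, -96, -20],
    ![24, -42, -81, -5, -169, 12, -3],
    ![22, -38, -78, 102, 81, 60, -68],
    ![-13, -131, 30, -12, -69, -133, 34],
    ![-56, 53, -171, 8, -23, 0, 11],
    ![-92, -42, -26, 81, -44, -65, -80],
    ![-17, -34, -38, -36, 71, -49, 124]]

def F7 : Fin 15 → Fin 7 → ℤ :=
  ![![208, -8, 84, 1, -6, 38, 37],
    ![24, -35, 128, -31, -38, 87, -129],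
    ![-60, 20, 38, -109, 125, -28, -108],
    ![-106, 83, 75, -105, -65, 25, 3],
    ![68, 57, -15, -115, 43, 114, -11],
    ![39, 124, 41, 55, -25, 79, 111],
    ![97, 112, 12, 111, -4, -105, 28],
    ![-10, 8, 143, 66, 78, -17, 10],
    ![120, 46, -36, -88, 28, -85, -60],
    ![73, 83, 23, -21, -175, -3, -54],
    ![71, 58, -7, 78, 98, 42, -117],
    ![44, -20, 136, -60, -60, -119, -13],
    ![-17, 203, -86, -7, -10, -26, -37],
    ![-63, 80, 46, 50, -53, -80, -169],
    ![36, 55, 37, -81, 102, -46, 142]]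

def B7 : Fin 7 → ℤ := ![-51, -126, -162, -10, 14, -1, 46]

def X8 : Fin 22 → Fin 8 → ℤ :=
  ![![-511, 44, 953, -460, 328, -78, 153, 449],
    ![37, -221, 287, -933, 234, 260, -16, -704],
    ![-619, -431, 292, 154, 42, 645, -425, -425],
    ![147, 565, 688, -124, 398, 688, -454, -246],
    ![-342, -107, -181, -808, -213, 576, -697, 330],
    ![-61, -220, 33, -946, -382, 7, 644, 320],
    ![-541, -442, 68, 85, -816, 492, 134, 480],
    ![560, -98, 77, -68, -380, 969, 125, -370],
    ![-827, 386, -86, -520, 634, 248, -78, -310],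
    ![-510, -389, -666, -448, -146, 650, 391, -445],
    ![-398, 464, -357, 207, -86, 1100, -175, -26],
    ![-246, -263, 193, -204, 330, 1189, 540, 478],
    ![-874, -215, 172, -503, -340, -585, 113, -387],
    ![-806, 564, 464, 81, -300, -68, -540, 101],
    ![-134, 422, 227, 144, 76, 147, 206, -1139],
    ![-89, 441, 92, 36, -843, -165, 651, -240],
    ![-853, 170, 313, 177, 143, 51, 992, 153],
    ![201, 76, 797, -337, -640, -240, -241, -150],
    ![169, 730, -321, -786, -126, 260, -11, -372],
    ![119, 586, 403, -156, -331, 439, 152, 716],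
    ![-97, 266, 970, 763, -230, 443, 332, -105],
    ![329, 444, 738, -210, 389, 203, 941, -208]]

def F8 : Fin 22 → Fin 8 → ℤ :=
  ![![21, -381, 457, -132, 756, -566, -258, 733],
    ![621, -731, -43, -508, 677, -342, -301, -469],
    ![-220, -848, 23, 586, 410, 37, -670, -297],
    ![604, 268, 229, 211, 726, 72, -777, 51],
    ![153, -282, -301, -381, 169, -15, -823, 550],
    ![525, -488, -329, -539, -58, -485, 434, 556],
    ![-57, -667, -255, 555, -548, -103, -58, 639],
    ![1003, -338, -231, 242, -208, 356, -36, -189],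
    ![-369, 143, -551, 15, 1106, -350, -318, -39],
    ![-8, -632, -1006, 110, 227, -32, 271, -288],
    ![41, 419, -836, 746, 207, 349, -340, 234],
    ![347, -600, -299, 245, 753, 317, 208, 729],
    ![-395, -574, -185, -7, 25, -932, -105, -220],
    ![-355, 391, -37, 584, 9, -537, -817, 381],
    ![269, 110, -329, 581, 319, -322, -38, -933],
    ![386, 324, -504, 505, -684, -580, 458, 3],
    ![-395, -98, -399, 686, 505, -509, 633, 393],
    ![653, -257, 492, -53, -443, -551, -501, 50],
    ![685, 670, -745, -335, 153, -247, -134, -68],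
    ![586, 536, -83, 173, -123, -75, -85, 1022],
    ![326, -71, 328, 1117, -37, -111, -50, 119],
    ![829, 106, 67, 87, 651, -293, 558, 97]]

def B8 : Fin 8 → ℤ := ![-949, 343, 1025, -927, -256, 823, 564, -463]


lemma SC_7 : SC 7 15 := by
  refine SC_of_int X7 F7 B7 ?_ ?_
  · decide +kernel
  · decide +kernel

lemma SC_8 : SC 8 22 := by
  refine SC_of_int X8 F8 B8 ?_ ?_
  · decide +kernel
  · decide +kernel

lemma SC_add_ones {d m : ℕ} (h : SC d m) (k : ℕ) : SC (d + k) (m + k) := by
  induction k with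
  | zero => exact h
  | succ k ih =>
    have h1 := SC_add ih SC_one
    exact h1

/-- in every dimension at least seven there is a system with more than `2 d` members -/
lemma exists_SC (d : ℕ) (hd : 7 ≤ d) : ∃ m, 2 * d < m ∧ SC d m := by
  induction d using Nat.strong_induction_on with
  | _ d ih =>
    rcases Nat.lt_or_ge d 8 with h | h
    · have : d = 7 := by omega
      subst this
      exact ⟨15, by norm_num, SC_7⟩
    rcases Nat.lt_or_ge d 14 with h' | h'
    · refine ⟨22 + (d - 8), by omega, ?_⟩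
      have := SC_add_ones SC_8 (d - 8)
      rwa [show 8 + (d - 8) = d by omega] at this
    · obtain ⟨m, hm, hs⟩ := ih (d - 7) (by omega) (by omega)
      refine ⟨m + 15, by omega, ?_⟩
      have := SC_add hs SC_7
      rwa [show d - 7 + 7 = d by omega] at this


lemma exists_pos_lb {ι : Type*} [Fintype ι] (g : ι → ℝ) (hg : ∀ i, 0 < g i) :
    ∃ δ : ℝ, 0 < δ ∧ ∀ i, δ ≤ g i := by
  have hS : 0 ≤ ∑ i, (g i)⁻¹ := Finset.sum_nonneg (fun i _ => (inv_pos.mpr (hg i)).le)
  refine ⟨(1 + ∑ i, (g i)⁻¹)⁻¹, by positivity, fun i => ?_⟩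
  rw [inv_le_comm₀ (by positivity) (hg i)]
  have := Finset.single_le_sum (f := fun i => (g i)⁻¹)
    (fun j _ => (inv_pos.mpr (hg j)).le) (Finset.mem_univ i)
  linarith

lemma interior_le {d : ℕ} {f : E d →L[ℝ] ℝ} (hf : f ≠ 0) {c : ℝ} {S : Set (E d)}
    (h : ∀ x ∈ S, f x ≤ c) : ∀ x ∈ interior S, f x < c := by
  intro x hx
  have ho : IsOpenMap f := f.isOpenMap_of_ne_zero hf
  have h1 : interior S ⊆ f ⁻¹' (interior (Iic c)) := by
    rw [ho.preimage_interior_eq_interior_preimage f.continuous]
    exact interior_mono h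
  have := h1 hx
  rw [interior_Iic] at this
  exact this

/-- Touching translates `2 y i + K` with the sign conditions form a configuration. -/
lemma config_of {d m : ℕ} {K : Set (E d)} (hK : ∀ x ∈ K, -x ∈ K) (y : Fin m → E d)
    (f : Fin m → (E d →L[ℝ] ℝ)) (hy : ∀ i, y i ∈ K) (hmax : ∀ i, ∀ x ∈ K, f i x ≤ f i (y i))
    (hpos : ∀ i, 0 < f i (y i)) (hneg : ∀ i j, i ≠ j → f i (y j) < 0) :
    ∃ V : Finset (E d), V.card = m ∧ IsSepHadwigerConfig K V := by
  classical
  have hinj : Function.Injective (fun i => (2 : ℝ) • y i) := by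
    intro i j hij
    by_contra hne
    have h1 : y i = y j := by
      have := congrArg (fun z => (1 / 2 : ℝ) • z) hij
      simpa [smul_smul] using this
    have h2 := hneg i j hne
    rw [← h1] at h2
    exact absurd (hpos i) (not_lt.mpr h2.le)
  have hf0 : ∀ i, f i ≠ 0 := by
    intro i h0
    have := hpos i
    rw [h0] at this
    simp at this
  have hmin : ∀ i, ∀ x ∈ K, -(f i (y i)) ≤ f i x := by
    intro i x hx
    have := hmax i _ (hK x hx)
    rw [map_neg] at this
    linarith
  let W : Set (E d) := insert 0 ((Finset.univ.image (fun i => (2 : ℝ) • y i) : Finset (E d)) : Set (E d))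
  have hW : ∀ w ∈ W, w = 0 ∨ ∃ i, w = (2 : ℝ) • y i := by
    intro w hw
    rcases hw with hw | hw
    · exact Or.inl hw
    · right
      simp only [Finset.coe_image, Finset.coe_univ, image_univ, mem_range] at hw
      obtain ⟨i, hi⟩ := hw
      exact ⟨i, hi.symm⟩
  -- the translate by `2 y i` lies above the hyperplane
  have up : ∀ i, ∀ x ∈ tr K ((2 : ℝ) • y i), f i (y i) ≤ f i x := by
    rintro i _ ⟨x, hx, rfl⟩
    have := hmin i x hx
    simp only [map_add, map_smul, smul_eq_mul]
    linarith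
  -- all others lie below
  have down : ∀ i, ∀ w ∈ W, w ≠ (2 : ℝ) • y i → ∀ x ∈ tr K w, f i x ≤ f i (y i) := by
    rintro i w hw hne _ ⟨x, hx, rfl⟩
    have h1 := hmax i x hx
    rcases hW w hw with rfl | ⟨j, rfl⟩
    · simpa using h1
    · have hij : i ≠ j := by
        rintro rfl
        exact hne rfl
      have := hneg i j hij
      simp only [map_add, map_smul, smul_eq_mul]
      linarith
  have miss : ∀ i, ∀ w ∈ W, Disjoint (interior (tr K w)) {x | f i x = f i (y i)} := by
    intro i w hw
    rw [Set.disjoint_left]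
    intro x hx hx'
    have hx' : f i x = f i (y i) := hx'
    by_cases h : w = (2 : ℝ) • y i
    · subst h
      have hneg' : -(f i) ≠ 0 := neg_ne_zero.mpr (hf0 i)
      have := interior_le (c := -(f i (y i))) hneg' (fun x hx => by
        have := up i x hx
        show (-(f i)) x ≤ -(f i (y i))
        simp only [neg_apply]
        linarith) x hx
      simp only [neg_apply] at this
      linarith
    · have := interior_le (hf0 i) (down i w hw h) x hx
      linarith
  have hsep : IsTotallySeparable K W := by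
    intro u hu v hv huv
    rcases hW v hv with hv0 | ⟨j, hvj⟩
    · rcases hW u hu with hu0 | ⟨i, hui⟩
      · exact absurd (hu0.trans hv0.symm) huv
      · refine ⟨-(f i), -(f i (y i)), neg_ne_zero.mpr (hf0 i), ?_, ?_, ?_⟩
        · intro x hx
          rw [hui] at hx
          have := up i x hx
          simp only [neg_apply]
          linarith
        · intro x hx
          have := down i v hv (fun h => huv (hui.trans h.symm)) x hx
          simp only [neg_apply]
          linarith
        · intro w hw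
          have := miss i w hw
          simpa [neg_inj] using this
    · refine ⟨f j, f j (y j), hf0 j, ?_, ?_, miss j⟩
      · exact down j u hu (fun h => huv (h.trans hvj.symm))
      · rw [hvj]
        exact up j
  refine ⟨Finset.univ.image (fun i => (2 : ℝ) • y i), ?_, ?_, ?_, ?_, hsep⟩
  · rw [Finset.card_image_of_injective _ hinj]
    simp
  · intro h0
    simp only [Finset.mem_image, Finset.mem_univ, true_and] at h0
    obtain ⟨i, hi⟩ := h0
    have := hpos i
    have h1 : y i = 0 := by
      have := congrArg (fun z => (1 / 2 : ℝ) • z) hi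
      simpa [smul_smul] using this
    rw [h1] at this
    simp at this
  · intro v hv
    simp only [Finset.mem_image, Finset.mem_univ, true_and] at hv
    obtain ⟨i, rfl⟩ := hv
    refine ⟨y i, ⟨-(y i), hK _ (hy i), ?_⟩, hy i⟩
    module
  · intro u hu v hv huv
    obtain ⟨g, c, hg, h1, h2, _⟩ := hsep u hu v hv huv
    rw [Set.disjoint_left]
    intro x hx hx'
    have a1 := interior_le hg h1 x hx
    have a2 := interior_le (c := -c) (neg_ne_zero.mpr hg) (fun x hx => by
        have := h2 x hx
        show (-g) x ≤ -c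
        simp only [neg_apply]
        linarith) x hx'
    simp only [neg_apply] at a2
    linarith


/-- the polytope spanned by the vectors and their negatives -/
def poly {d m : ℕ} (x : Fin m → E d) : Set (E d) :=
  convexHull ℝ (range x ∪ range (fun i => -x i))

lemma neg_mem_poly {d m : ℕ} (x : Fin m → E d) {p : E d} (hp : p ∈ poly x) : -p ∈ poly x := by
  have h : -(range x ∪ range (fun i => -x i)) = range x ∪ range (fun i => -x i) := by
    ext z
    simp only [Set.mem_neg, mem_union, mem_range]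
    constructor
    · rintro (⟨i, hi⟩ | ⟨i, hi⟩)
      · exact Or.inr ⟨i, by rw [hi, neg_neg]⟩
      · exact Or.inl ⟨i, neg_injective hi⟩
    · rintro (⟨i, hi⟩ | ⟨i, hi⟩)
      · exact Or.inr ⟨i, by rw [hi]⟩
      · exact Or.inl ⟨i, by rw [← hi, neg_neg]⟩
  unfold poly at hp ⊢
  rw [← h, convexHull_neg, Set.mem_neg, neg_neg]
  exact hp

open Pointwise in
/-- the reference body: the polytope thickened by a ball -/
noncomputable def body {d m : ℕ} (x : Fin m → E d) (i₀ : Fin m) (r : ℝ) (hr : 0 < r) :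
    SymBody d :=
  ⟨{ carrier := poly x + Metric.closedBall 0 r
     convex' := (convex_convexHull ℝ _).add (convex_closedBall 0 r)
     isCompact' := (((finite_range x).union (finite_range _)).isCompact_convexHull ℝ).add
       (isCompact_closedBall 0 r)
     nonempty' := ⟨x i₀ + 0, add_mem_add
       (subset_convexHull ℝ _ (Or.inl ⟨i₀, rfl⟩)) (Metric.mem_closedBall_self hr.le)⟩ }, by
    constructor
    · refine ⟨x i₀, interior_maximal (t := Metric.ball (x i₀) r) ?_ Metric.isOpen_ball
        (Metric.mem_ball_self hr)⟩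
      intro z hz
      refine ⟨x i₀, subset_convexHull ℝ _ (Or.inl ⟨i₀, rfl⟩), z - x i₀, ?_, by simp⟩
      rw [mem_closedBall_zero_iff, ← dist_eq_norm]
      exact (Metric.mem_ball.mp hz).le
    · rintro _ ⟨p, hp, u, hu, rfl⟩
      refine ⟨-p, neg_mem_poly x hp, -u, ?_, ?_⟩
      · rw [mem_closedBall_zero_iff] at hu ⊢
        rwa [norm_neg]
      · simp only [neg_add]⟩

open Pointwise in
lemma mem_body {d m : ℕ} {x : Fin m → E d} {i₀ : Fin m} {r : ℝ} {hr : 0 < r} {z : E d}
    (hz : z ∈ (body x i₀ r hr).1) : ∃ p ∈ poly x, ‖z - p‖ ≤ r := by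
  obtain ⟨p, hp, u, hu, rfl⟩ := hz
  refine ⟨p, hp, ?_⟩
  rw [mem_closedBall_zero_iff] at hu
  simpa using hu

open Pointwise in
lemma vertex_mem_body {d m : ℕ} (x : Fin m → E d) (i₀ : Fin m) (r : ℝ) (hr : 0 < r) (i : Fin m) :
    x i ∈ (body x i₀ r hr).1 :=
  ⟨x i, subset_convexHull ℝ _ (Or.inl ⟨i, rfl⟩), 0, Metric.mem_closedBall_self hr.le, by simp⟩

/-- all bodies near the reference body have a configuration of size `m` -/
lemma robust {d m : ℕ} (i₀ : Fin m) (x : Fin m → E d) (f : Fin m → (E d →L[ℝ] ℝ))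
    (hd : ∀ i, f i (x i) = 1) (ho : ∀ i j, i ≠ j → -1 < f i (x j) ∧ f i (x j) < 0) :
    ∃ K₀ : SymBody d, ∃ ε : ℝ, 0 < ε ∧ ∀ K : SymBody d, dist K K₀ < ε →
      ∃ V : Finset (E d), V.card = m ∧ IsSepHadwigerConfig (K.1 : Set (E d)) V := by
  classical
  obtain ⟨δ, hδ, hδ'⟩ := exists_pos_lb
    (fun p : Fin m × Fin m => if p.1 = p.2 then (1 : ℝ) else
      min (-(f p.1 (x p.2))) (1 + f p.1 (x p.2))) (by
      rintro ⟨i, j⟩
      by_cases h : i = j
      · simp [h]
      · simp only [h, if_false]
        have := ho i j h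
        exact lt_min (by linarith) (by linarith))
  have hδ1 : δ ≤ 1 := by
    have := hδ' (i₀, i₀)
    simpa using this
  have hub : ∀ i j, i ≠ j → f i (x j) ≤ -δ := by
    intro i j h
    have := hδ' (i, j)
    simp only [h, if_false] at this
    have := this.trans (min_le_left _ _)
    linarith
  have hlb : ∀ i j, i ≠ j → -1 + δ ≤ f i (x j) := by
    intro i j h
    have := hδ' (i, j)
    simp only [h, if_false] at this
    have := this.trans (min_le_right _ _)
    linarith
  have habs : ∀ i j, -1 ≤ f i (x j) ∧ f i (x j) ≤ 1 := by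
    intro i j
    by_cases h : i = j
    · subst h; rw [hd]; norm_num
    · have h1 := hub i j h
      have h2 := hlb i j h
      constructor <;> linarith
  let M : ℝ := 2 / δ + 1
  have hM1 : 1 ≤ M := by
    have : 0 < 2 / δ := by positivity
    show 1 ≤ 2 / δ + 1
    linarith
  have hMδ : 2 ≤ M * δ := by
    show 2 ≤ (2 / δ + 1) * δ
    rw [add_mul, div_mul_cancel₀ _ hδ.ne']
    linarith
  let S : ℝ := ∑ i, ‖f i‖
  have hS0 : 0 ≤ S := Finset.sum_nonneg (fun i _ => norm_nonneg _)
  have hSi : ∀ i, ‖f i‖ ≤ S := fun i =>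
    Finset.single_le_sum (f := fun i => ‖f i‖) (fun j _ => norm_nonneg _) (Finset.mem_univ i)
  let L : ℝ := (1 + M) * (1 + S)
  have hL : 0 < L := by positivity
  have hfi : ∀ i u, |f i u| ≤ S * ‖u‖ := by
    intro i u
    have := (f i).le_opNorm u
    rw [Real.norm_eq_abs] at this
    exact this.trans (by gcongr; exact hSi i)
  have hfL : ∀ i j u, f j u + M * f i u ≤ L * ‖u‖ := by
    intro i j u
    have h1 := (le_abs_self _).trans (hfi j u)
    have h2 := (le_abs_self _).trans (hfi i u)
    have h3 : M * f i u ≤ M * (S * ‖u‖) := by gcongr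
    have h4 : 0 ≤ (1 + M) * ‖u‖ := by positivity
    have h5 : L * ‖u‖ = (S * ‖u‖ + M * (S * ‖u‖)) + (1 + M) * ‖u‖ := by
      show (1 + M) * (1 + S) * ‖u‖ = _
      ring
    linarith
  have hML : ∀ i u, M * f i u ≤ L * ‖u‖ := by
    intro i u
    have h2 := (le_abs_self _).trans (hfi i u)
    have h3 : M * f i u ≤ M * (S * ‖u‖) := by gcongr
    have h4 : 0 ≤ (1 + M) * ‖u‖ := by positivity
    have h6 : 0 ≤ S * ‖u‖ := by positivity
    have h5 : L * ‖u‖ = (S * ‖u‖ + M * (S * ‖u‖)) + (1 + M) * ‖u‖ := by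
      show (1 + M) * (1 + S) * ‖u‖ = _
      ring
    linarith
  let r : ℝ := δ / (4 * L)
  have hr : 0 < r := by positivity
  have hLr : L * r = δ / 4 := by
    show L * (δ / (4 * L)) = δ / 4
    field_simp
  -- the key inequality on the polytope
  have hpoly : ∀ i j, i ≠ j → ∀ p ∈ poly x, f j p + M * f i p ≤ f j (x i) + M := by
    intro i j hij
    have hconv : Convex ℝ {p : E d | f j p + M * f i p ≤ f j (x i) + M} := by
      have : {p : E d | f j p + M * f i p ≤ f j (x i) + M} =
          {p : E d | (f j + M • f i) p ≤ f j (x i) + M} := by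
        ext p; simp
      rw [this]
      exact convex_halfSpace_le (f j + M • f i).toLinearMap.isLinear _
    apply convexHull_min _ hconv
    rintro z (⟨k, rfl⟩ | ⟨k, rfl⟩)
    · show f j (x k) + M * f i (x k) ≤ f j (x i) + M
      by_cases hk : i = k
      · subst hk; rw [hd i]; linarith
      · have h1 := hub i k hk
        have h2 := (habs j k).2
        have h3 := (habs j i).1
        have h4 : M * f i (x k) ≤ M * (-δ) := by gcongr
        nlinarith
    · show f j (-x k) + M * f i (-x k) ≤ f j (x i) + M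
      rw [map_neg, map_neg]
      by_cases hk : i = k
      · subst hk; rw [hd i]
        have h3 := (habs j i).1
        nlinarith
      · have h1 := hlb i k hk
        have h2 := (habs j k).1
        have h3 := (habs j i).1
        have h4 : M * (-(f i (x k))) ≤ M * (1 - δ) := by gcongr; linarith
        nlinarith
  refine ⟨body x i₀ r hr, r, hr, ?_⟩
  intro K hK
  have hne : Metric.hausdorffEDist (K.1 : Set (E d)) ((body x i₀ r hr).1 : Set (E d)) ≠ ⊤ :=
    ConvexBody.hausdorffEDist_ne_top
  have hKd : Metric.hausdorffDist (K.1 : Set (E d)) ((body x i₀ r hr).1 : Set (E d)) < r := hK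
  have hKne : (K.1 : Set (E d)).Nonempty := K.1.nonempty
  choose y hyK hymax using fun i =>
    K.1.isCompact.exists_isMaxOn hKne (f i).continuous.continuousOn
  have hmax : ∀ i, ∀ z ∈ (K.1 : Set (E d)), f i z ≤ f i (y i) := fun i z hz => hymax i hz
  have hlow : ∀ i, M - δ / 4 ≤ M * f i (y i) := by
    intro i
    obtain ⟨z, hz, hz'⟩ := Metric.exists_dist_lt_of_hausdorffDist_lt'
      (vertex_mem_body x i₀ r hr i) hKd hne
    have h1 := hmax i z hz
    have h2 := hML i (x i - z)
    rw [map_sub, hd] at h2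
    have h3 : ‖x i - z‖ ≤ r := by
      rw [← dist_eq_norm, dist_comm]; exact hz'.le
    have h4 : L * ‖x i - z‖ ≤ L * r := by gcongr
    have h5 : M * f i z ≤ M * f i (y i) := by gcongr
    nlinarith
  apply config_of K.2.2 y f hyK hmax
  · intro i
    have := hlow i
    have h1 : 0 < M * f i (y i) := by linarith
    have h2 : 0 < M := by linarith
    exact (mul_pos_iff_of_pos_left h2).mp h1
  · intro i j hij
    -- `f i (y j) < 0`
    obtain ⟨z, hz, hz'⟩ := Metric.exists_dist_lt_of_hausdorffDist_lt (hyK j) hKd hne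
    obtain ⟨p, hp, hpz⟩ := mem_body hz
    have h1 := hpoly j i hij.symm p hp
    have h2 := hfL j i (y j - p)
    have h3 : ‖y j - p‖ ≤ 2 * r := by
      have : y j - p = (y j - z) + (z - p) := by abel
      rw [this]
      refine (norm_add_le _ _).trans ?_
      rw [← dist_eq_norm]
      linarith
    have h4 : L * ‖y j - p‖ ≤ L * (2 * r) := by gcongr
    have h5 := hlow j
    have h6 := hub i j hij
    rw [map_sub, map_sub] at h2
    nlinarith

lemma SC_robust {d m : ℕ} (hm : 0 < m) (h : SC d m) :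
    ∃ K₀ : SymBody d, ∃ ε : ℝ, 0 < ε ∧ ∀ K : SymBody d, dist K K₀ < ε →
      (m : ℕ∞) ≤ Hsep (K.1 : Set (E d)) := by
  obtain ⟨x, f, b, hd, ho, _⟩ := h
  let f' : Fin m → (E d →L[ℝ] ℝ) := fun i => ∑ k, f i k • EuclideanSpace.proj k
  have hf' : ∀ i (z : E d), f' i z = ∑ k, f i k * z k := by
    intro i z
    simp [f']
  obtain ⟨K₀, ε, hε, H⟩ := robust (⟨0, hm⟩ : Fin m) (fun i => WithLp.toLp 2 (x i)) f'
    (by intro i; rw [hf']; exact hd i) (by intro i j hij; rw [hf']; exact ho i j hij)
  refine ⟨K₀, ε, hε, fun K hK => ?_⟩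
  obtain ⟨V, hV, hc⟩ := H K hK
  rw [← hV]
  exact le_iSup₂ (f := fun (V : Finset (E d)) (_ : IsSepHadwigerConfig (K.1 : Set (E d)) V) =>
    (V.card : ℕ∞)) V hc

/-- In every dimension `d ≥ 7` there is an origin-symmetric convex body `K₀` and `ε > 0` such
that every origin-symmetric convex body within Hausdorff distance `ε` of `K₀` has separable
Hadwiger number larger than `2 d`; hence the bodies with separable Hadwiger number `2 d` are
not dense. -/
theorem result (d : ℕ) (hd : 7 ≤ d) :
    (∃ K₀ : SymBody d, ∃ ε : ℝ, 0 < ε ∧ ∀ K : SymBody d, dist K K₀ < ε →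
      2 * (d : ℕ∞) < Hsep (K.1 : Set (E d))) ∧
    ¬ Dense {K : SymBody d | Hsep (K.1 : Set (E d)) = 2 * (d : ℕ∞)} := by
  obtain ⟨m, hm, hs⟩ := exists_SC d hd
  obtain ⟨K₀, ε, hε, H⟩ := SC_robust (by omega) hs
  have hlt : ∀ K : SymBody d, dist K K₀ < ε → 2 * (d : ℕ∞) < Hsep (K.1 : Set (E d)) := by
    intro K hK
    refine lt_of_lt_of_le ?_ (H K hK)
    exact_mod_cast hm
  refine ⟨⟨K₀, ε, hε, hlt⟩, ?_⟩
  intro hdense
  obtain ⟨K, hK, hKd⟩ := hdense.exists_dist_lt K₀ hε
  rw [dist_comm] at hKd
  exact absurd hK (hlt K hKd).ne'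

end Pool.Agent.Results.MP_75a0ab_co.NotDense
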